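import Pool.Agent.W165.OZ.Stm

/-!
Project OZ (helper940 for helper165): the nodes (S_NO).
-/

set_option autoImplicit false

open Polynomial Pool.Agent.H337R2 Filter Topology

namespace Pool.Agent.W940.OZ

open Pool.Agent.W165.OZ

/-- a series over the natural numbers from the series over the residue classes -/
lemma hasSum_of_mod (N : ℕ) (hN : 1 ≤ N) (f : ℕ → ℝ) (g : ℕ → ℝ)
    (h : ∀ e < N, HasSum (fun v : ℕ => f (v * N + e)) (g e)) :
    HasSum f (∑ e ∈ Finset.range N, g e) := by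
  have h1 : ∀ e ∈ Finset.range N, HasSum (fun n : ℕ => if n % N = e then f n else 0) (g e) := by
    intro e he
    have heN : e < N := Finset.mem_range.1 he
    have hinj : Function.Injective (fun v : ℕ => v * N + e) := by
      intro a b hab
      have : a * N = b * N := by
        simpa using hab
      exact Nat.eq_of_mul_eq_mul_right (by omega) this
    rw [← hinj.hasSum_iff (f := fun n : ℕ => if n % N = e then f n else 0)]
    · have : ((fun n : ℕ => if n % N = e then f n else 0) ∘ fun v : ℕ => v * N + e) =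
          fun v : ℕ => f (v * N + e) := by
        funext v
        have : (v * N + e) % N = e := by
          rw [Nat.add_comm, Nat.add_mul_mod_self_right, Nat.mod_eq_of_lt heN]
        simp [this]
      rw [this]
      exact h e heN
    · intro n hn
      rw [if_neg]
      intro hmod
      exact hn ⟨n / N, by
        show n / N * N + e = n
        rw [← hmod]
        exact Nat.div_add_mod' n N⟩
  have h2 := hasSum_sum h1
  convert h2 using 1
  funext n
  rw [Finset.sum_ite_eq, if_pos (Finset.mem_range.2 (Nat.mod_lt _ (by omega)))]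

/-- the fractions with denominator `d` in `(0, 1]` -/
def Sd (d : ℕ) : Finset ℚ := (Finset.Icc 1 d).image (fun j : ℕ => (j : ℚ) / d)

/-- all fractions with denominators at most `B` in `(0, 1]` -/
def Pt (B : ℕ) : Finset ℚ := (Finset.Icc 1 B).biUnion Sd

/-- the weights of the fractions -/
def om (B : ℕ) (w : ℕ → ℤ) (x : ℚ) : ℤ := ∑ d ∈ (Finset.Icc 1 B).filter (fun d => x ∈ Sd d), w d

/-- the fractions with weight not zero -/
def Xs (B : ℕ) (w : ℕ → ℤ) : Finset ℚ := (Pt B).filter (fun x => om B w x ≠ 0)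

lemma mem_Sd {d : ℕ} {x : ℚ} : x ∈ Sd d ↔ ∃ j : ℕ, 1 ≤ j ∧ j ≤ d ∧ (j : ℚ) / d = x := by
  simp [Sd, and_assoc]

lemma Pt_pos {B : ℕ} {x : ℚ} (hx : x ∈ Pt B) : 0 < x ∧ x ≤ 1 := by
  obtain ⟨d, hd, hx⟩ := Finset.mem_biUnion.1 hx
  obtain ⟨j, h1, h2, rfl⟩ := mem_Sd.1 hx
  have hd1 : (0 : ℚ) < d := by exact_mod_cast (Finset.mem_Icc.1 hd).1
  have hj : (0 : ℚ) < j := by exact_mod_cast h1
  have hjd : (j : ℚ) ≤ d := by exact_mod_cast h2
  exact ⟨by positivity, by rw [div_le_one hd1]; exact hjd⟩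

lemma Pt_lo {B : ℕ} {x : ℚ} (hx : x ∈ Pt B) : 1 / (B : ℚ) ^ 2 ≤ x := by
  obtain ⟨d, hd, hx⟩ := Finset.mem_biUnion.1 hx
  obtain ⟨j, h1, h2, rfl⟩ := mem_Sd.1 hx
  obtain ⟨hd0, hdB⟩ := Finset.mem_Icc.1 hd
  have hd1 : (1 : ℚ) ≤ d := by exact_mod_cast hd0
  have hdB' : (d : ℚ) ≤ B := by exact_mod_cast hdB
  have hj : (1 : ℚ) ≤ j := by exact_mod_cast h1
  have hB : (1 : ℚ) ≤ B := hd1.trans hdB'
  rw [div_le_div_iff₀ (by positivity) (by linarith)]
  nlinarith

lemma Pt_gap {B : ℕ} {x y : ℚ} (hx : x ∈ Pt B) (hy : y ∈ Pt B) (hxy : x < y) :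
    1 / (B : ℚ) ^ 2 ≤ y - x := by
  obtain ⟨d, hd, hx⟩ := Finset.mem_biUnion.1 hx
  obtain ⟨j, h1, h2, rfl⟩ := mem_Sd.1 hx
  obtain ⟨d', hd', hy⟩ := Finset.mem_biUnion.1 hy
  obtain ⟨j', h1', h2', rfl⟩ := mem_Sd.1 hy
  obtain ⟨hd0, hdB⟩ := Finset.mem_Icc.1 hd
  obtain ⟨hd0', hdB'⟩ := Finset.mem_Icc.1 hd'
  have a1 : (0 : ℚ) < d := by exact_mod_cast hd0
  have a2 : (0 : ℚ) < d' := by exact_mod_cast hd0'
  have a3 : (d : ℚ) ≤ B := by exact_mod_cast hdB
  have a4 : (d' : ℚ) ≤ B := by exact_mod_cast hdB'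
  have a5 : (0 : ℚ) < B := a1.trans_le a3
  rw [div_lt_div_iff₀ a1 a2] at hxy
  have h5 : j * d' < j' * d := by exact_mod_cast hxy
  have h6 : ((j * d' : ℕ) : ℚ) + 1 ≤ ((j' * d : ℕ) : ℚ) := by exact_mod_cast h5
  push_cast at h6
  have h7 : (j' : ℚ) / d' - (j : ℚ) / d = ((j' : ℚ) * d - j * d') / (d' * d) := by
    field_simp
  rw [h7, div_le_div_iff₀ (by positivity) (by positivity)]
  have h8 : (d' : ℚ) * d ≤ B ^ 2 := by nlinarith
  nlinarith [sq_nonneg (B : ℚ)]

lemma gauss (B : ℕ) : 2 * ∑ d ∈ Finset.Icc 1 B, d = B * (B + 1) := by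
  induction B with
  | zero => simp
  | succ n ih =>
    rw [Finset.sum_Icc_succ_top (by omega), mul_add, ih]
    ring

lemma card_Pt (B : ℕ) : 2 * (Pt B).card ≤ B * (B + 1) := by
  rw [← gauss]
  refine Nat.mul_le_mul_left 2 ?_
  refine Finset.card_biUnion_le.trans (Finset.sum_le_sum fun d _ => ?_)
  refine Finset.card_image_le.trans ?_
  simp

lemma Xs_nonempty {B : ℕ} {w : ℕ → ℤ} (h : ∃ d ∈ Finset.Icc 1 B, w d ≠ 0) : (Xs B w).Nonempty := by
  classical
  set T := (Finset.Icc 1 B).filter (fun d => w d ≠ 0) with hT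
  have hTn : T.Nonempty := by
    obtain ⟨d, hd, hw⟩ := h
    exact ⟨d, Finset.mem_filter.2 ⟨hd, hw⟩⟩
  set D := T.max' hTn with hD
  have hDT : D ∈ T := T.max'_mem hTn
  obtain ⟨hD1, hD2⟩ := Finset.mem_filter.1 hDT
  obtain ⟨hD3, hD4⟩ := Finset.mem_Icc.1 hD1
  have hD5 : (0 : ℚ) < D := by exact_mod_cast hD3
  have hom : om B w (1 / (D : ℚ)) = w D := by
    unfold om
    rw [Finset.sum_eq_single_of_mem D]
    · refine Finset.mem_filter.2 ⟨hD1, mem_Sd.2 ⟨1, le_rfl, hD3, by simp⟩⟩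
    · intro d hd hne
      by_contra hw
      obtain ⟨h1, h2⟩ := Finset.mem_filter.1 hd
      obtain ⟨j, h3, h4, h5⟩ := mem_Sd.1 h2
      have h6 : (0 : ℚ) < d := by exact_mod_cast (Finset.mem_Icc.1 h1).1
      rw [div_eq_div_iff h6.ne' hD5.ne'] at h5
      have h7 : j * D = 1 * d := by exact_mod_cast h5
      have h8 : d ≤ D := T.le_max' d (Finset.mem_filter.2 ⟨h1, hw⟩)
      apply hne
      nlinarith
  refine ⟨1 / (D : ℚ), Finset.mem_filter.2 ⟨Finset.mem_biUnion.2 ⟨D, hD1, mem_Sd.2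
    ⟨1, le_rfl, hD3, by simp⟩⟩, ?_⟩⟩
  rw [hom]
  exact hD2

/-- the sum over `u` as a sum over the fractions with denominator `d` -/
lemma tsum_d {d : ℕ} (hd : 1 ≤ d) (F : ℝ → ℝ)
    (hF : Summable (fun u : ℕ => F (((u : ℝ) + d + 1) / d))) :
    (∀ x ∈ Sd d, Summable (fun v : ℕ => F (1 + (v : ℝ) + ((x : ℚ) : ℝ)))) ∧
    ∑' u : ℕ, F (((u : ℝ) + d + 1) / d) =
      ∑ x ∈ Sd d, ∑' v : ℕ, F (1 + (v : ℝ) + ((x : ℚ) : ℝ)) := by
  have hd0 : (0 : ℝ) < d := by exact_mod_cast hd
  have hpt : ∀ e v : ℕ, (((v * d + e : ℕ) : ℝ) + d + 1) / d =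
      1 + (v : ℝ) + (((((e + 1 : ℕ) : ℚ) / d : ℚ)) : ℝ) := by
    intro e v
    push_cast
    field_simp
    ring
  have hsub : ∀ e : ℕ, Summable (fun v : ℕ => F (1 + (v : ℝ) + (((((e + 1 : ℕ) : ℚ) / d : ℚ)) : ℝ))) := by
    intro e
    have hinj : Function.Injective (fun v : ℕ => v * d + e) := by
      intro a b hab
      have : a * d = b * d := by
        simpa using hab
      exact Nat.eq_of_mul_eq_mul_right (by omega) this
    have := hF.comp_injective hinj
    refine this.congr fun v => ?_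
    rw [Function.comp_apply, ← hpt]
  constructor
  · intro x hx
    obtain ⟨j, h1, h2, rfl⟩ := mem_Sd.1 hx
    have := hsub (j - 1)
    rwa [show j - 1 + 1 = j by omega] at this
  · have h1 := hasSum_of_mod d hd (fun u : ℕ => F (((u : ℝ) + d + 1) / d))
      (fun e => ∑' v : ℕ, F (1 + (v : ℝ) + (((((e + 1 : ℕ) : ℚ) / d : ℚ)) : ℝ))) (fun e _ => by
        have := (hsub e).hasSum
        convert this using 1
        funext v
        rw [hpt])
    rw [h1.tsum_eq]
    unfold Sd
    rw [Finset.sum_image]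
    · refine Finset.sum_nbij' (fun e => e + 1) (fun j => j - 1) ?_ ?_ ?_ ?_ ?_
      · intro e he; rw [Finset.mem_range] at he; rw [Finset.mem_Icc]; omega
      · intro j hj; rw [Finset.mem_Icc] at hj; rw [Finset.mem_range]; omega
      · intro e _; omega
      · intro j hj; rw [Finset.mem_Icc] at hj; omega
      · intro e _; rfl
    · intro a _ b _ hab
      have hd' : (d : ℚ) ≠ 0 := by exact_mod_cast (by omega : d ≠ 0)
      simp only at hab
      rw [div_left_inj' hd'] at hab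
      exact_mod_cast hab

theorem t_no : S_NO := by
  classical
  intro B w hw
  have hX := Xs_nonempty hw
  set X := Xs B w with hXdef
  set N := X.card with hNdef
  have hN : 1 ≤ N := Finset.card_pos.2 hX
  have hNpos : 0 < N := hN
  have hXP : ∀ x ∈ X, x ∈ Pt B := fun x hx => (Finset.mem_filter.1 hx).1
  have hXom : ∀ x ∈ X, om B w x ≠ 0 := fun x hx => (Finset.mem_filter.1 hx).2
  let xf : ℕ → ℚ := fun i => X.orderEmbOfFin rfl ⟨i % N, Nat.mod_lt _ hNpos⟩
  have hxf : ∀ i, xf i ∈ X := fun i => Finset.orderEmbOfFin_mem _ _ _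
  have hB : 1 ≤ B := by
    obtain ⟨d, hd, -⟩ := hw
    have := Finset.mem_Icc.1 hd
    omega
  have hBr : (1 : ℝ) ≤ B := by exact_mod_cast hB
  set c2 : ℝ := ∑ d ∈ Finset.Icc 1 B, |(w d : ℝ)| with hc2
  refine ⟨N, 1 / (B : ℝ) ^ 2, 1, c2, fun i => 1 + ((i / N : ℕ) : ℝ) + ((xf i : ℚ) : ℝ),
    fun i => ((om B w (xf i) : ℤ) : ℝ), ?_, ?_, ?_⟩
  · refine ⟨hN, by positivity, ?_, one_pos, ?_, ?_, ?_, ?_, ?_⟩
    · rw [div_le_one (by positivity)]
      nlinarith
    · intro i
      have : (0 : ℝ) < ((xf i : ℚ) : ℝ) := by exact_mod_cast (Pt_pos (hXP _ (hxf i))).1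
      linarith
    · intro i
      have : ((xf i : ℚ) : ℝ) ≤ 1 := by exact_mod_cast (Pt_pos (hXP _ (hxf i))).2
      linarith
    · intro i
      by_cases hi : i % N + 1 < N
      · have e1 : (i + 1) / N = i / N := by
          rw [Nat.div_eq_iff hNpos]
          have := Nat.div_add_mod i N
          have h3 : N * (i / N) = i / N * N := mul_comm _ _
          constructor
          · omega
          · omega
        have e2 : (i + 1) % N = i % N + 1 := by
          rw [Nat.add_mod_eq_ite]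
          have h1N : 1 % N = 1 := Nat.mod_eq_of_lt (by omega)
          rw [h1N, if_neg (by omega)]
        have h3 : xf i < xf (i + 1) := by
          apply (X.orderEmbOfFin rfl).strictMono
          rw [Fin.lt_def]
          simp only
          omega
        have h4 := Pt_gap (hXP _ (hxf i)) (hXP _ (hxf (i + 1))) h3
        have h5 : (((1 / (B : ℚ) ^ 2 : ℚ)) : ℝ) ≤ (((xf (i + 1) - xf i : ℚ)) : ℝ) := by
          exact_mod_cast h4
        push_cast at h5
        rw [e1]
        linarith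
      · have hlt := Nat.mod_lt i hNpos
        have e1 : (i + 1) / N = i / N + 1 := by
          rw [Nat.div_eq_iff hNpos]
          have := Nat.div_add_mod i N
          have h3 : N * (i / N) = i / N * N := mul_comm _ _
          have h4 : (i / N + 1) * N = i / N * N + N := by ring
          constructor
          · omega
          · omega
        have h4 := Pt_lo (hXP _ (hxf (i + 1)))
        have h5 : (((1 / (B : ℚ) ^ 2 : ℚ)) : ℝ) ≤ (((xf (i + 1) : ℚ)) : ℝ) := by
          exact_mod_cast h4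
        push_cast at h5
        have h6 : ((xf i : ℚ) : ℝ) ≤ 1 := by exact_mod_cast (Pt_pos (hXP _ (hxf i))).2
        rw [e1]
        push_cast
        linarith
    · intro i
      have := Int.one_le_abs (hXom _ (hxf i))
      exact_mod_cast this
    · intro i
      unfold om
      push_cast
      refine (Finset.abs_sum_le_sum_abs _ _).trans ?_
      exact Finset.sum_le_sum_of_subset_of_nonneg (Finset.filter_subset _ _) fun _ _ _ => abs_nonneg _
  · refine le_trans (Nat.mul_le_mul_left 2 ?_) (card_Pt B)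
    exact Finset.card_le_card (Finset.filter_subset _ _)
  · intro F hF
    -- the series at a fraction
    let G : ℚ → ℝ := fun x => ∑' v : ℕ, F (1 + (v : ℝ) + ((x : ℚ) : ℝ))
    have hG : ∀ x ∈ Pt B, HasSum (fun v : ℕ => F (1 + (v : ℝ) + ((x : ℚ) : ℝ))) (G x) := by
      intro x hx
      obtain ⟨d, hd, hx⟩ := Finset.mem_biUnion.1 hx
      exact ((tsum_d (Finset.mem_Icc.1 hd).1 F (hF d hd)).1 x hx).hasSum
    have hsum : ∑ d ∈ Finset.Icc 1 B, (w d : ℝ) * ∑' u : ℕ, F (((u : ℝ) + d + 1) / d) =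
        ∑ e ∈ Finset.range N, ((om B w (xf e) : ℤ) : ℝ) * G (xf e) := by
      have e1 : ∑ d ∈ Finset.Icc 1 B, (w d : ℝ) * ∑' u : ℕ, F (((u : ℝ) + d + 1) / d) =
          ∑ d ∈ Finset.Icc 1 B, ∑ x ∈ Sd d, (w d : ℝ) * G x := by
        refine Finset.sum_congr rfl fun d hd => ?_
        rw [(tsum_d (Finset.mem_Icc.1 hd).1 F (hF d hd)).2, Finset.mul_sum]
      have e2 : ∑ d ∈ Finset.Icc 1 B, ∑ x ∈ Sd d, (w d : ℝ) * G x =
          ∑ x ∈ Pt B, ∑ d ∈ (Finset.Icc 1 B).filter (fun d => x ∈ Sd d), (w d : ℝ) * G x := by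
        refine Finset.sum_comm' fun d x => ?_
        rw [Finset.mem_filter]
        constructor
        · rintro ⟨h1, h2⟩
          exact ⟨⟨h1, h2⟩, Finset.mem_biUnion.2 ⟨d, h1, h2⟩⟩
        · rintro ⟨h1, -⟩
          exact h1
      have e3 : ∑ x ∈ Pt B, ∑ d ∈ (Finset.Icc 1 B).filter (fun d => x ∈ Sd d), (w d : ℝ) * G x =
          ∑ x ∈ Pt B, ((om B w x : ℤ) : ℝ) * G x := by
        refine Finset.sum_congr rfl fun x _ => ?_
        unfold om
        push_cast
        rw [Finset.sum_mul]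
      have e4 : ∑ x ∈ Pt B, ((om B w x : ℤ) : ℝ) * G x = ∑ x ∈ X, ((om B w x : ℤ) : ℝ) * G x := by
        rw [hXdef]
        unfold Xs
        rw [Finset.sum_filter]
        refine Finset.sum_congr rfl fun x _ => ?_
        split_ifs with h
        · rfl
        · push Not at h
          rw [h]
          simp
      have e5 : ∑ x ∈ X, ((om B w x : ℤ) : ℝ) * G x =
          ∑ e ∈ Finset.range N, ((om B w (xf e) : ℤ) : ℝ) * G (xf e) := by
        symm
        refine Finset.sum_bij (fun e _ => xf e) (fun e _ => hxf e) ?_ ?_ (fun _ _ => rfl)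
        · intro a ha b hb hab
          have h1 := (X.orderEmbOfFin rfl).injective hab
          rw [Fin.mk.injEq, Nat.mod_eq_of_lt (Finset.mem_range.1 ha),
            Nat.mod_eq_of_lt (Finset.mem_range.1 hb)] at h1
          exact h1
        · intro x hx
          have h1 : x ∈ Set.range (X.orderEmbOfFin rfl) := by
            rw [Finset.range_orderEmbOfFin]
            exact hx
          obtain ⟨i, hi⟩ := h1
          refine ⟨i.1, Finset.mem_range.2 i.2, ?_⟩
          rw [← hi]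
          show X.orderEmbOfFin rfl _ = _
          congr 1
          apply Fin.ext
          exact Nat.mod_eq_of_lt i.2
      rw [e1, e2, e3, e4, e5]
    rw [hsum]
    refine hasSum_of_mod N hN _ _ fun e he => ?_
    have hx : ∀ v : ℕ, xf (v * N + e) = xf e := by
      intro v
      show X.orderEmbOfFin rfl _ = X.orderEmbOfFin rfl _
      congr 1
      apply Fin.ext
      show (v * N + e) % N = e % N
      rw [Nat.add_comm, Nat.add_mul_mod_self_right]
    have hdiv : ∀ v : ℕ, (v * N + e) / N = v := by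
      intro v
      rw [Nat.add_comm, Nat.add_mul_div_right _ _ hNpos, Nat.div_eq_of_lt he, zero_add]
    have h1 := (hG (xf e) (hXP _ (hxf e))).mul_left (((om B w (xf e) : ℤ) : ℝ))
    have h2 : (fun v : ℕ => ((om B w (xf (v * N + e)) : ℤ) : ℝ) *
        F (1 + (((v * N + e) / N : ℕ) : ℝ) + ((xf (v * N + e) : ℚ) : ℝ))) =
        fun v : ℕ => ((om B w (xf e) : ℤ) : ℝ) * F (1 + (v : ℝ) + ((xf e : ℚ) : ℝ)) := by
      funext v
      rw [hx, hdiv]
    show HasSum (fun v : ℕ => ((om B w (xf (v * N + e)) : ℤ) : ℝ) *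
        F (1 + (((v * N + e) / N : ℕ) : ℝ) + ((xf (v * N + e) : ℚ) : ℝ))) _
    rw [h2]
    exact h1

end Pool.Agent.W940.OZ
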